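import Mathlib
import Pool.Agent.Results.MP_c14f63_co.OrderOfGrowth
import Pool.Agent.Y426.HC.Square
import Pool.Agent.Y426.HC.First

open Finset

namespace Pool.Agent.Results.MP_c14f63_co.ManyColours

open OrderOfGrowth (Vert Q anti adj_flip adj_iff_flip exists_walk flip_same flip_ne
  shift W wt level sum_abs_level sum_level level_anti central_lower vertEquiv)

/-- An edge colouring of the cube `Q n` with `r` colours. -/
abbrev Colouring (n r : ℕ) : Type := (Q n).edgeSet → Fin r

/-- The number of places where two consecutive entries of a list differ. -/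
def numChanges {r : ℕ} : List (Fin r) → ℕ
  | [] => 0
  | [_] => 0
  | a :: b :: l => (if a = b then 0 else 1) + numChanges (b :: l)

/-- The colours of the consecutive edges of a walk. -/
def colours {n r : ℕ} (χ : Colouring n r) {u v : Vert n} (w : (Q n).Walk u v) : List (Fin r) :=
  w.darts.map (fun d => χ ⟨d.edge, d.edge_mem⟩)

/-- The least number of colour changes over all paths from `u` to `v`. -/
noncomputable def dist {n r : ℕ} (χ : Colouring n r) (u v : Vert n) : ℕ :=
  sInf {k : ℕ | ∃ w : (Q n).Walk u v, w.IsPath ∧ numChanges (colours χ w) = k}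

/-- The average of the antipodal colour-change number `dist χ v (anti v)` over all vertices. -/
noncomputable def A {n r : ℕ} (χ : Colouring n r) : ℝ :=
  (∑ v : Vert n, (dist χ v (anti v) : ℝ)) / 2 ^ n

/-- The maximum of `A χ` over all colourings with `r` colours. -/
noncomputable def M (n r : ℕ) : ℝ := ⨆ χ : Colouring n r, A χ

open OrderOfGrowth renaming flip → flp

/-! ### Counting changes -/

section changes

variable {r : ℕ}

theorem numChanges_cons_le (a : Fin r) (l : List (Fin r)) :
    numChanges l ≤ numChanges (a :: l) := by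
  cases l with
  | nil => simp [numChanges]
  | cons b l => simp [numChanges]

theorem numChanges_cons_le_succ (a : Fin r) (l : List (Fin r)) :
    numChanges (a :: l) ≤ numChanges l + 1 := by
  cases l with
  | nil => simp [numChanges]
  | cons b l => simp only [numChanges]; split_ifs <;> omega

theorem numChanges_cons_cons (a b : Fin r) (l : List (Fin r)) :
    numChanges (a :: l) ≤ (if a = b then 0 else 1) + numChanges (b :: l) := by
  by_cases h : a = b
  · subst h; simp
  · rw [if_neg h]
    have h1 := numChanges_cons_le_succ a l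
    have h2 := numChanges_cons_le b l
    omega

theorem numChanges_sublist {l₁ l₂ : List (Fin r)} (h : l₁.Sublist l₂) :
    numChanges l₁ ≤ numChanges l₂ := by
  have key : ∀ {l₁ l₂ : List (Fin r)}, l₁.Sublist l₂ →
      numChanges l₁ ≤ numChanges l₂ ∧ ∀ a, numChanges (a :: l₁) ≤ numChanges (a :: l₂) := by
    intro l₁ l₂ h
    induction h with
    | slnil => exact ⟨le_rfl, fun a => le_rfl⟩
    | @cons l₁ l₂ b h ih =>
      refine ⟨ih.1.trans (numChanges_cons_le _ _), fun a => ?_⟩
      have h1 := numChanges_cons_cons a b l₁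
      have h2 := ih.2 b
      have h3 : numChanges (a :: b :: l₂) = (if a = b then 0 else 1) + numChanges (b :: l₂) := by
        simp [numChanges]
      omega
    | cons_cons b h ih =>
      refine ⟨ih.2 b, fun a => ?_⟩
      simp only [numChanges]
      have := ih.2 b
      omega
  exact (key h).1

theorem numChanges_append_single (l : List (Fin r)) (a b : Fin r) :
    numChanges (l ++ [a]) ≤ numChanges (l ++ [b]) + 1 := by
  induction l with
  | nil => simp [numChanges]
  | cons c l ih =>
    cases l with
    | nil =>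
      simp only [List.nil_append, List.cons_append, numChanges]
      split_ifs <;> omega
    | cons d l =>
      simp only [List.cons_append, numChanges] at ih ⊢
      omega

theorem numChanges_append_double (l : List (Fin r)) (a : Fin r) :
    numChanges (l ++ [a] ++ [a]) = numChanges (l ++ [a]) := by
  induction l with
  | nil => simp [numChanges]
  | cons c l ih =>
    cases l with
    | nil => simp [numChanges]
    | cons d l =>
      simp only [List.cons_append, numChanges] at ih ⊢
      omega

end changes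

/-! ### The potential -/

section potential

variable {n r : ℕ} (χ : Colouring n r)

/-- The least number of changes from `v` to `x` when an extra last colour `c` is added. -/
noncomputable def D (v x : Vert n) (c : Fin r) : ℕ :=
  sInf {k : ℕ | ∃ w : (Q n).Walk v x, numChanges (colours χ w ++ [c]) = k}

theorem D_spec (v x : Vert n) (c : Fin r) :
    ∃ w : (Q n).Walk v x, numChanges (colours χ w ++ [c]) = D χ v x c := by
  have hne : {k : ℕ | ∃ w : (Q n).Walk v x, numChanges (colours χ w ++ [c]) = k}.Nonempty := by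
    obtain ⟨w⟩ := exists_walk v x
    exact ⟨_, w, rfl⟩
  exact Nat.sInf_mem hne

theorem D_le (v x : Vert n) (c : Fin r) (w : (Q n).Walk v x) :
    D χ v x c ≤ numChanges (colours χ w ++ [c]) :=
  Nat.sInf_le ⟨w, rfl⟩

theorem D_self (v : Vert n) (c : Fin r) : D χ v v c = 0 := by
  have := D_le χ v v c SimpleGraph.Walk.nil
  simpa [colours, numChanges] using this

theorem D_le_succ (v x : Vert n) (c c' : Fin r) : D χ v x c ≤ D χ v x c' + 1 := by
  obtain ⟨w, hw⟩ := D_spec χ v x c'
  have h1 := D_le χ v x c w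
  have h2 := numChanges_append_single (colours χ w) c c'
  omega

/-- The colour of the edge at `y` in direction `i`. -/
def col (y : Vert n) (i : Fin n) : Fin r :=
  χ ⟨s(y, flp y i), (SimpleGraph.mem_edgeSet (Q n)).mpr (adj_flip y i)⟩

theorem col_flip (y : Vert n) (i : Fin n) : col χ (flp y i) i = col χ y i := by
  unfold col
  congr 1
  apply Subtype.ext
  show s(flp y i, flp (flp y i) i) = s(y, flp y i)
  rw [OrderOfGrowth.flip_flip, Sym2.eq_swap]

theorem colours_concat {u v x : Vert n} (w : (Q n).Walk u v) (h : (Q n).Adj v x) :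
    colours χ (w.concat h) = colours χ w ++ [χ ⟨s(v, x), (SimpleGraph.mem_edgeSet (Q n)).mpr h⟩] := by
  unfold colours
  rw [SimpleGraph.Walk.darts_concat]
  simp [List.concat_eq_append]

theorem D_flip_le (v y : Vert n) (i : Fin n) :
    D χ v (flp y i) (col χ y i) ≤ D χ v y (col χ y i) := by
  obtain ⟨w, hw⟩ := D_spec χ v y (col χ y i)
  have h1 := D_le χ v (flp y i) (col χ y i) (w.concat (adj_flip y i))
  rw [colours_concat] at h1
  have h2 : numChanges (colours χ w ++ [col χ y i] ++ [col χ y i])
      = numChanges (colours χ w ++ [col χ y i]) := numChanges_append_double _ _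
  unfold col at h1 h2 hw ⊢
  rw [h2, hw] at h1
  exact h1

theorem D_flip (v y : Vert n) (i : Fin n) :
    D χ v (flp y i) (col χ (flp y i) i) = D χ v y (col χ y i) := by
  apply le_antisymm
  · rw [col_flip]; exact D_flip_le χ v y i
  · have := D_flip_le χ v (flp y i) i
    rw [OrderOfGrowth.flip_flip] at this
    rw [col_flip] at this ⊢
    exact this

theorem dist_le_D (v x : Vert n) (c : Fin r) : dist χ v x ≤ D χ v x c := by
  obtain ⟨w, hw⟩ := D_spec χ v x c
  have h1 : dist χ v x ≤ numChanges (colours χ w.bypass) :=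
    Nat.sInf_le ⟨w.bypass, w.bypass_isPath, rfl⟩
  have h2 : numChanges (colours χ w.bypass) ≤ numChanges (colours χ w) :=
    numChanges_sublist (w.darts_bypass_sublist_darts.map _)
  have h3 : numChanges (colours χ w) ≤ numChanges (colours χ w ++ [c]) :=
    numChanges_sublist (List.sublist_append_left _ _)
  omega

end potential

/-! ### Upper bounds -/

section upper

variable {n r : ℕ} (χ : Colouring n r)

theorem noise (hr : 1 ≤ r) {T : ℝ} (hT0 : 0 ≤ T) (hT1 : T ≤ 1) :
    Real.sqrt (∑ v : Vert n, ∑ K : Vert n, W K T * ∑ a, (D χ v (shift v K) a : ℝ) ^ 2)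
      ≤ 1 / 2 * Real.sqrt (2 ^ n * (r * (r - 1) * n)) *
        (Real.arcsin (2 * T - 1) + Real.pi / 2) :=
  Y426.HC.noise_sq hr (D χ) (col χ) (fun v y a b => D_le_succ χ v y a b)
    (fun v y i => D_flip χ v y i) (fun v a => D_self χ v a) hT0 hT1

theorem sum_sq_ge (v y : Vert n) :
    (r : ℝ) * (dist χ v y : ℝ) ^ 2 ≤ ∑ a, (D χ v y a : ℝ) ^ 2 := by
  have h : ∑ a : Fin r, (dist χ v y : ℝ) ^ 2 = r * (dist χ v y : ℝ) ^ 2 := by
    rw [Finset.sum_const, Finset.card_univ, Fintype.card_fin, nsmul_eq_mul]
  rw [← h]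
  apply Finset.sum_le_sum
  intro a _
  have : (dist χ v y : ℝ) ≤ D χ v y a := by exact_mod_cast dist_le_D χ v y a
  exact pow_le_pow_left₀ (by positivity) this 2

/-- The second moment of the antipodal colour-change number. -/
theorem sum_sq_anti (hr : 1 ≤ r) :
    ∑ v : Vert n, (dist χ v (anti v) : ℝ) ^ 2
      ≤ (Real.pi / 2) ^ 2 * ((r - 1) * n) * 2 ^ n := by
  have hr' : (0 : ℝ) < r := by exact_mod_cast hr
  have hr1 : (1 : ℝ) ≤ r := by exact_mod_cast hr
  have h := noise χ hr (T := 1) zero_le_one le_rfl
  have hH1 : ∑ v : Vert n, ∑ K : Vert n, W K (1 : ℝ) * ∑ a, (D χ v (shift v K) a : ℝ) ^ 2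
      = ∑ v : Vert n, ∑ a, (D χ v (anti v) a : ℝ) ^ 2 := by
    apply Finset.sum_congr rfl
    intro v _
    rw [Finset.sum_eq_single (fun _ => true)]
    · have h1 : W (fun _ : Fin n => true) (1 : ℝ) = 1 := by simp [W, wt]
      have h2 : shift v (fun _ => true) = anti v := by funext i; simp [shift, anti]
      rw [h1, h2, one_mul]
    · intro K _ hK
      obtain ⟨i, hi⟩ := Function.ne_iff.mp hK
      have h1 : W K (1 : ℝ) = 0 := by
        apply Finset.prod_eq_zero (mem_univ i)
        have : K i = false := by simpa using hi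
        simp [wt, this]
      rw [h1, zero_mul]
    · intro h; exact absurd (mem_univ _) h
  rw [hH1, show (2 : ℝ) * 1 - 1 = 1 by norm_num, Real.arcsin_one] at h
  have hpos : (0 : ℝ) ≤ 2 ^ n * (r * (r - 1) * n) := by
    have : (0 : ℝ) ≤ r - 1 := by linarith
    positivity
  have h2 : ∑ v : Vert n, ∑ a, (D χ v (anti v) a : ℝ) ^ 2
      ≤ (Real.pi / 2) ^ 2 * (2 ^ n * (r * (r - 1) * n)) := by
    have h3 := Real.sqrt_le_iff.mp h
    refine h3.2.trans (le_of_eq ?_)
    rw [mul_pow, mul_pow, Real.sq_sqrt hpos]
    ring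
  have h4 : (r : ℝ) * ∑ v : Vert n, (dist χ v (anti v) : ℝ) ^ 2
      ≤ ∑ v : Vert n, ∑ a, (D χ v (anti v) a : ℝ) ^ 2 := by
    rw [Finset.mul_sum]
    exact Finset.sum_le_sum fun v _ => sum_sq_ge χ v (anti v)
  have h5 : (r : ℝ) * ∑ v : Vert n, (dist χ v (anti v) : ℝ) ^ 2
      ≤ r * ((Real.pi / 2) ^ 2 * ((r - 1) * n) * 2 ^ n) := by
    refine h4.trans (h2.trans (le_of_eq ?_))
    ring
  exact le_of_mul_le_mul_left h5 hr'

/-- The second moment of the colour-change number of a random pair. -/
theorem sum_sq_pairs (hr : 1 ≤ r) :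
    ∑ u : Vert n, ∑ v : Vert n, (dist χ u v : ℝ) ^ 2
      ≤ (Real.pi / 4) ^ 2 * ((r - 1) * n) * 4 ^ n := by
  have hr' : (0 : ℝ) < r := by exact_mod_cast hr
  have hr1 : (1 : ℝ) ≤ r := by exact_mod_cast hr
  have h := noise χ hr (T := 1 / 2) (by norm_num) (by norm_num)
  have hH1 : ∑ v : Vert n, ∑ K : Vert n, W K (1 / 2 : ℝ) * ∑ a, (D χ v (shift v K) a : ℝ) ^ 2
      = (∑ v : Vert n, ∑ y : Vert n, ∑ a, (D χ v y a : ℝ) ^ 2) / 2 ^ n := by
    rw [Finset.sum_div]
    apply Finset.sum_congr rfl
    intro v _
    rw [Finset.sum_div]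
    have e1 : ∀ K : Vert n, W K (1 / 2 : ℝ) = 1 / 2 ^ n := by
      intro K
      unfold W wt
      have : ∀ i, (if K i then (1 / 2 : ℝ) else 1 - 1 / 2) = 1 / 2 := by
        intro i; split_ifs <;> norm_num
      rw [Finset.prod_congr rfl fun i _ => this i, Finset.prod_const, Finset.card_univ,
        Fintype.card_fin, one_div_pow]
    have e2 : ∀ v K : Vert n, shift v K = shift K v := by
      intro v K
      funext i
      simp [shift, Bool.xor_comm]
    have e3 := Equiv.sum_comp (OrderOfGrowth.shiftPerm v)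
      (fun y : Vert n => (∑ a, (D χ v y a : ℝ) ^ 2) / 2 ^ n)
    rw [← e3]
    apply Finset.sum_congr rfl
    intro K _
    show W K (1 / 2) * ∑ a, (D χ v (shift v K) a : ℝ) ^ 2
      = (∑ a, (D χ v (shift K v) a : ℝ) ^ 2) / 2 ^ n
    rw [e1, e2]
    ring
  rw [hH1, show (2 : ℝ) * (1 / 2) - 1 = 0 by norm_num, Real.arcsin_zero, zero_add] at h
  have hpos : (0 : ℝ) ≤ 2 ^ n * (r * (r - 1) * n) := by
    have : (0 : ℝ) ≤ r - 1 := by linarith
    positivity
  have h2 : (∑ v : Vert n, ∑ y : Vert n, ∑ a, (D χ v y a : ℝ) ^ 2) / 2 ^ n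
      ≤ (Real.pi / 4) ^ 2 * (2 ^ n * (r * (r - 1) * n)) := by
    have h3 := Real.sqrt_le_iff.mp h
    refine h3.2.trans (le_of_eq ?_)
    rw [mul_pow, mul_pow, Real.sq_sqrt hpos]
    ring
  rw [div_le_iff₀ (by positivity)] at h2
  have h4 : (r : ℝ) * ∑ u : Vert n, ∑ v : Vert n, (dist χ u v : ℝ) ^ 2
      ≤ ∑ v : Vert n, ∑ y : Vert n, ∑ a, (D χ v y a : ℝ) ^ 2 := by
    rw [Finset.mul_sum]
    apply Finset.sum_le_sum
    intro u _
    rw [Finset.mul_sum]
    exact Finset.sum_le_sum fun v _ => sum_sq_ge χ u v
  have h5 : (r : ℝ) * ∑ u : Vert n, ∑ v : Vert n, (dist χ u v : ℝ) ^ 2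
      ≤ r * ((Real.pi / 4) ^ 2 * ((r - 1) * n) * 4 ^ n) := by
    refine h4.trans (h2.trans (le_of_eq ?_))
    rw [show (4 : ℝ) = 2 * 2 by norm_num, mul_pow]
    ring
  exact le_of_mul_le_mul_left h5 hr'

theorem A_le_of_pos (hr : 1 ≤ r) : A χ ≤ Real.pi / 2 * Real.sqrt ((r - 1) * n) := by
  have hr1 : (1 : ℝ) ≤ r := by exact_mod_cast hr
  have h := sum_sq_anti χ hr
  have h2 : (∑ v : Vert n, (dist χ v (anti v) : ℝ)) ^ 2
      ≤ 2 ^ n * ∑ v : Vert n, (dist χ v (anti v) : ℝ) ^ 2 := by
    have := sq_sum_le_card_mul_sum_sq (s := (univ : Finset (Vert n)))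
      (f := fun v => (dist χ v (anti v) : ℝ))
    simp only [Finset.card_univ, Fintype.card_pi, Fintype.card_bool, Finset.prod_const,
      Fintype.card_fin] at this
    push_cast at this
    exact this
  unfold A
  have hp : (0 : ℝ) < 2 ^ n := by positivity
  rw [div_le_iff₀ hp]
  apply le_of_sq_le_sq _ (by positivity)
  have hnn : (0 : ℝ) ≤ (r - 1) * n := mul_nonneg (by linarith) (Nat.cast_nonneg _)
  calc (∑ v : Vert n, (dist χ v (anti v) : ℝ)) ^ 2
      ≤ 2 ^ n * ((Real.pi / 2) ^ 2 * ((r - 1) * n) * 2 ^ n) :=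
        h2.trans (mul_le_mul_of_nonneg_left h hp.le)
    _ = (Real.pi / 2 * Real.sqrt ((r - 1) * n) * 2 ^ n) ^ 2 := by
        rw [mul_pow, mul_pow, Real.sq_sqrt hnn]
        ring

theorem bddAbove_A (n r : ℕ) (hr : 1 ≤ r) :
    BddAbove (Set.range (fun χ : Colouring n r => A χ)) :=
  ⟨_, by rintro _ ⟨χ, rfl⟩; exact A_le_of_pos χ hr⟩

theorem M_le (n r : ℕ) (hr : 1 ≤ r) : M n r ≤ Real.pi / 2 * Real.sqrt ((r - 1) * n) := by
  have : Nonempty (Colouring n r) := ⟨fun _ => ⟨0, hr⟩⟩
  exact ciSup_le fun χ => A_le_of_pos χ hr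

theorem A_le_M (hr : 1 ≤ r) : A χ ≤ M n r := le_ciSup (bddAbove_A n r hr) χ

/-- The first moment for two colours, with the better constant. -/
theorem A_le_two (χ : Colouring n 2) : A χ ≤ Real.sqrt (Real.pi / 2 * n) := by
  unfold A
  rw [div_le_iff₀ (by positivity)]
  set ε : Vert n → Fin n → ℤ := fun y i => if col χ y i = 1 then -1 else 1 with hε
  set X : Vert n → Vert n → ℝ := fun v y => ((D χ v y 0 : ℝ) + D χ v y 1) / 2 with hX
  set s : Vert n → Vert n → ℝ := fun v y => (D χ v y 1 : ℝ) - D χ v y 0 with hs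
  have key := Y426.HC.noise_l1 ε (by
      intro y i
      simp only [hε]
      split_ifs <;> simp) X s (by
      intro v y
      have h1 : (D χ v y 1 : ℝ) ≤ D χ v y 0 + 1 := by
        exact_mod_cast D_le_succ χ v y 1 0
      have h2 : (D χ v y 0 : ℝ) ≤ D χ v y 1 + 1 := by
        exact_mod_cast D_le_succ χ v y 0 1
      simp only [hs]
      rw [abs_le]
      constructor <;> linarith) (by
      intro v y i
      have e : ∀ z : Vert n, X v z - 1 / 2 * (ε z i : ℝ) * s v z = D χ v z (col χ z i) := by
        intro z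
        simp only [hX, hε, hs]
        have h01 : col χ z i = 0 ∨ col χ z i = 1 := by
          rcases Fin.exists_fin_two.mp ⟨col χ z i, rfl⟩ with h | h
          · exact Or.inl h
          · exact Or.inr h
        rcases h01 with h | h <;> rw [h] <;> simp <;> ring
      rw [e, e, D_flip])
  refine le_trans (Finset.sum_le_sum fun v _ => ?_) key
  have h1 : (dist χ v (anti v) : ℝ) ≤ D χ v (anti v) 0 := by
    exact_mod_cast dist_le_D χ v (anti v) 0
  have h2 : (dist χ v (anti v) : ℝ) ≤ D χ v (anti v) 1 := by
    exact_mod_cast dist_le_D χ v (anti v) 1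
  simp only [hX]
  rw [D_self, D_self]
  push_cast
  linarith

theorem M_le_two (n : ℕ) : M n 2 ≤ Real.sqrt (Real.pi / 2 * n) := by
  have : Nonempty (Colouring n 2) := ⟨fun _ => 0⟩
  exact ciSup_le fun χ => A_le_two χ

end upper

/-! ### The lower bound: layered colourings with several blocks of coordinates -/

/-- The number of maximal constant pieces of a list. -/
def runs {r : ℕ} : List (Fin r) → ℕ
  | [] => 0
  | [_] => 1
  | a :: b :: l => (if a = b then 0 else 1) + runs (b :: l)

theorem runs_le {r : ℕ} (l : List (Fin r)) : runs l ≤ numChanges l + 1 := by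
  induction l with
  | nil => simp [runs]
  | cons a l ih =>
    cases l with
    | nil => simp [runs, numChanges]
    | cons b l => simp only [runs, numChanges] at ih ⊢; omega

theorem runs_cons_le {r : ℕ} (a : Fin r) (l : List (Fin r)) : runs (a :: l) ≤ runs l + 1 := by
  cases l with
  | nil => simp [runs]
  | cons b l => simp only [runs]; split_ifs <;> omega

/-- The part of a list in the colours `2 j`, `2 j + 1`. -/
def part {r : ℕ} (j : ℕ) (l : List (Fin r)) : List (Fin r) :=
  l.filter (fun c => decide (c.val / 2 = j))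

theorem sum_runs_part {r : ℕ} (b : ℕ) (l : List (Fin r)) :
    ∑ j ∈ range b, runs (part j l) ≤ runs l := by
  induction l with
  | nil => simp [part, runs]
  | cons a l ih =>
    have h1 : ∀ j ∈ range b, j ≠ a.val / 2 → runs (part j (a :: l)) = runs (part j l) := by
      intro j _ hj
      have : part j (a :: l) = part j l := by
        unfold part
        rw [List.filter_cons_of_neg]
        simpa using fun h => hj h.symm
      rw [this]
    have h2 : part (a.val / 2) (a :: l) = a :: part (a.val / 2) l := by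
      unfold part
      rw [List.filter_cons_of_pos]
      simp
    by_cases hb : a.val / 2 ∈ range b
    · rw [← Finset.add_sum_erase _ _ hb] at ih ⊢
      have h3 : ∑ j ∈ (range b).erase (a.val / 2), runs (part j (a :: l))
          = ∑ j ∈ (range b).erase (a.val / 2), runs (part j l) := by
        apply Finset.sum_congr rfl
        intro j hj
        exact h1 j (Finset.mem_of_mem_erase hj) (Finset.ne_of_mem_erase hj)
      rw [h3, h2]
      cases l with
      | nil => simp [part, runs]
      | cons c l =>
        by_cases hc : a = c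
        · subst hc
          have h4 : part (a.val / 2) (a :: l) = a :: part (a.val / 2) l := by
            unfold part
            rw [List.filter_cons_of_pos]
            simp
          rw [h4] at ih ⊢
          simp only [runs, if_true] at ih ⊢
          omega
        · have h4 := runs_cons_le a (part (a.val / 2) (c :: l))
          simp only [runs, if_neg hc]
          omega
    · have h3 : ∑ j ∈ range b, runs (part j (a :: l)) = ∑ j ∈ range b, runs (part j l) := by
        apply Finset.sum_congr rfl
        intro j hj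
        exact h1 j hj (fun e => hb (e ▸ hj))
      rw [h3]
      cases l with
      | nil => simp [part, runs]
      | cons c l =>
        simp only [runs]
        omega

section lower

variable {n : ℕ}

/-- The number of ones of `v` among the coordinates congruent to `j` modulo `b`. -/
def blevel (b : ℕ) (j : ℕ) (v : Vert n) : ℕ :=
  (univ.filter (fun i : Fin n => i.val % b = j ∧ v i = true)).card

theorem blevel_flip_ne (b j : ℕ) (y : Vert n) (i : Fin n) (h : i.val % b ≠ j) :
    blevel b j (flp y i) = blevel b j y := by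
  unfold blevel
  congr 1
  ext k
  simp only [mem_filter, mem_univ, true_and]
  by_cases hk : k = i
  · subst hk
    exact ⟨fun h' => absurd h'.1 h, fun h' => absurd h'.1 h⟩
  · rw [flip_ne y hk]

theorem blevel_flip_false (b j : ℕ) (y : Vert n) (i : Fin n) (h : i.val % b = j)
    (hy : y i = false) : blevel b j (flp y i) = blevel b j y + 1 := by
  unfold blevel
  have e : univ.filter (fun k : Fin n => k.val % b = j ∧ flp y i k = true)
      = insert i (univ.filter (fun k : Fin n => k.val % b = j ∧ y k = true)) := by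
    ext k
    simp only [mem_filter, mem_univ, true_and, mem_insert]
    by_cases hk : k = i
    · subst hk; simp [flip_same, hy, h]
    · rw [flip_ne y hk]; simp [hk]
  rw [e, Finset.card_insert_of_notMem (by simp [hy])]

/-- Adjacent vertices: exactly one block level changes, by one. -/
theorem blevel_adj {b : ℕ} (hb : 0 < b) {x y : Vert n} (h : (Q n).Adj x y) :
    ∃ j < b, (blevel b j y = blevel b j x + 1 ∨ blevel b j x = blevel b j y + 1) ∧
      ∀ k, k ≠ j → blevel b k y = blevel b k x := by
  obtain ⟨i, rfl⟩ := adj_iff_flip h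
  refine ⟨i.val % b, Nat.mod_lt _ hb, ?_, fun k hk => blevel_flip_ne b k x i (Ne.symm hk)⟩
  cases hx : x i
  · left; exact blevel_flip_false b _ x i rfl hx
  · right
    have h1 : (flp x i) i = false := by rw [flip_same, hx]; rfl
    have h2 := blevel_flip_false b _ (flp x i) i rfl h1
    rw [OrderOfGrowth.flip_flip] at h2
    exact h2

/-- The colour number of a pair of vertices. -/
def cnum (b : ℕ) (x y : Vert n) : ℕ :=
  ∑ j ∈ range b, if blevel b j x = blevel b j y then 0
    else 2 * j + min (blevel b j x) (blevel b j y) % 2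

theorem cnum_comm (b : ℕ) (x y : Vert n) : cnum b x y = cnum b y x := by
  unfold cnum
  apply Finset.sum_congr rfl
  intro j _
  rw [min_comm]
  by_cases h : blevel b j x = blevel b j y
  · rw [if_pos h, if_pos h.symm]
  · rw [if_neg h, if_neg (fun e => h e.symm)]

theorem cnum_adj {b : ℕ} {x y : Vert n} {j : ℕ} (hj : j < b)
    (h1 : blevel b j y = blevel b j x + 1 ∨ blevel b j x = blevel b j y + 1)
    (h2 : ∀ k, k ≠ j → blevel b k y = blevel b k x) :
    cnum b x y = 2 * j + min (blevel b j x) (blevel b j y) % 2 := by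
  unfold cnum
  rw [Finset.sum_eq_single j]
  · rw [if_neg (by omega)]
  · intro k _ hk
    rw [if_pos (h2 k hk).symm]
  · intro h; exact absurd (mem_range.mpr hj) h

/-- The layered colouring with `b` blocks. -/
def blayer (n r b : ℕ) (hr : 0 < r) : Colouring n r := fun e =>
  Sym2.lift ⟨fun x y : Vert n => (⟨cnum b x y % r, Nat.mod_lt _ hr⟩ : Fin r), fun x y => by
    simp only [cnum_comm b x y]⟩ e.1

theorem blayer_val {r b : ℕ} (hr : 0 < r) (hbr : 2 * b ≤ r) {x y : Vert n}
    (h : s(x, y) ∈ (Q n).edgeSet) {j : ℕ} (hj : j < b)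
    (h1 : blevel b j y = blevel b j x + 1 ∨ blevel b j x = blevel b j y + 1)
    (h2 : ∀ k, k ≠ j → blevel b k y = blevel b k x) :
    (blayer n r b hr ⟨s(x, y), h⟩).val = 2 * j + min (blevel b j x) (blevel b j y) % 2 := by
  show cnum b x y % r = _
  rw [cnum_adj hj h1 h2, Nat.mod_eq_of_lt]
  have := Nat.mod_lt (min (blevel b j x) (blevel b j y)) (show 0 < 2 by norm_num)
  omega

/-- The other level of the component of colour `c` through level `k`. -/
def other {r : ℕ} (c : Fin r) (k : ℕ) : ℤ :=
  if k % 2 = c.val % 2 then (k : ℤ) + 1 else (k : ℤ) - 1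

/-- The invariant along a walk, read from its end. -/
def Inv {r : ℕ} (L : List (Fin r)) (k T : ℕ) : Prop :=
  match L with
  | [] => k = T
  | h :: l => 1 + min |(k : ℤ) - T| |other h k - T| ≤ runs (h :: l)

theorem inv_walk {r b : ℕ} (hb : 0 < b) (hr : 0 < r) (hbr : 2 * b ≤ r) {u v : Vert n}
    (w : (Q n).Walk u v) {j : ℕ} (hj : j < b) :
    Inv (part j (colours (blayer n r b hr) w)) (blevel b j u) (blevel b j v) := by
  induction w with
  | nil => simp [colours, part, Inv]
  | @cons u u' v h w ih =>
    obtain ⟨j', hj', h1, h2⟩ := blevel_adj hb h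
    have hval := blayer_val hr hbr ((SimpleGraph.mem_edgeSet (Q n)).mpr h) hj' h1 h2
    set c := blayer n r b hr ⟨s(u, u'), (SimpleGraph.mem_edgeSet (Q n)).mpr h⟩ with hc
    have hcol : colours (blayer n r b hr) (SimpleGraph.Walk.cons h w)
        = c :: colours (blayer n r b hr) w := by
      simp [colours, hc]
    rw [hcol]
    have hdiv : c.val / 2 = j' := by rw [hval]; omega
    by_cases hjj : j' = j
    · subst hjj
      have h3 : part j' (c :: colours (blayer n r b hr) w)
          = c :: part j' (colours (blayer n r b hr) w) := by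
        unfold part
        rw [List.filter_cons_of_pos]
        simpa using hdiv
      rw [h3]
      set k := blevel b j' u
      set k1 := blevel b j' u'
      set T := blevel b j' v
      have hmod : c.val % 2 = min k k1 % 2 := by rw [hval]; omega
      have hoth : other c k = k1 := by
        unfold other
        rw [hmod]
        rcases h1 with h1 | h1
        · rw [min_eq_left (by omega), if_pos rfl]; omega
        · rw [min_eq_right (by omega), if_neg (by omega)]; omega
      have hoth' : other c k1 = k := by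
        unfold other
        rw [hmod]
        rcases h1 with h1 | h1
        · rw [min_eq_left (by omega), if_neg (by omega)]; omega
        · rw [min_eq_right (by omega), if_pos rfl]; omega
      cases hP : part j' (colours (blayer n r b hr) w) with
      | nil =>
        rw [hP] at ih
        simp only [Inv] at ih ⊢
        rw [hoth, ih]
        simp [runs]
      | cons d l =>
        rw [hP] at ih
        simp only [Inv] at ih ⊢
        rw [hoth]
        by_cases hcd : c = d
        · subst hcd
          rw [hoth'] at ih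
          have : runs (c :: c :: l) = runs (c :: l) := by simp [runs]
          rw [this, min_comm]
          exact ih
        · have h4 : runs (c :: d :: l) = 1 + runs (d :: l) := by simp [runs, hcd]
          rw [h4]
          push_cast
          have h5 : |(other d k1 : ℤ) - k1| ≤ 1 := by
            unfold other
            split_ifs <;> simp
          have h6 : |(k1 : ℤ) - T| ≤ 1 + min |(k1 : ℤ) - T| |other d k1 - T| := by
            have h7 := abs_sub_le (k1 : ℤ) (other d k1) T
            rw [abs_sub_comm] at h5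
            rcases min_cases |(k1 : ℤ) - T| |other d k1 - T| with ⟨h8, -⟩ | ⟨h8, -⟩ <;> rw [h8]
            · omega
            · omega
          have h9 := min_le_right |(k : ℤ) - T| |(k1 : ℤ) - T|
          omega
    · have h3 : part j (c :: colours (blayer n r b hr) w)
          = part j (colours (blayer n r b hr) w) := by
        unfold part
        rw [List.filter_cons_of_neg]
        simpa [hdiv] using hjj
      rw [h3, ← h2 j (fun e => hjj e.symm)]
      exact ih

theorem inv_bound {r : ℕ} (L : List (Fin r)) (k T : ℕ) (h : Inv L k T) :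
    |(k : ℤ) - T| ≤ runs L := by
  cases L with
  | nil => simp only [Inv] at h; subst h; simp [runs]
  | cons c l =>
    simp only [Inv] at h
    have h5 : |(k : ℤ) - other c k| ≤ 1 := by
      unfold other
      split_ifs <;> simp
    have h7 := abs_sub_le (k : ℤ) (other c k) T
    rcases min_cases |(k : ℤ) - T| |other c k - T| with ⟨h8, -⟩ | ⟨h8, -⟩ <;> rw [h8] at h <;> omega

theorem blevel_anti (b j : ℕ) (v : Vert n) : blevel b j (anti v) + blevel b j v
    = (univ.filter (fun i : Fin n => i.val % b = j)).card := by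
  unfold blevel
  have e : univ.filter (fun i : Fin n => i.val % b = j ∧ anti v i = true)
      = (univ.filter (fun i : Fin n => i.val % b = j)).filter (fun i => ¬ (v i = true)) := by
    ext i; simp [anti]
  have e2 : univ.filter (fun i : Fin n => i.val % b = j ∧ v i = true)
      = (univ.filter (fun i : Fin n => i.val % b = j)).filter (fun i => (v i = true)) := by
    ext i; simp
  rw [e, e2, add_comm, Finset.card_filter_add_card_filter_not]

/-- The block of coordinates congruent to `j` modulo `b`. -/
def blk (n b j : ℕ) : Finset (Fin n) := univ.filter (fun i : Fin n => i.val % b = j)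

/-- The signed sum over a set of coordinates. -/
def sg (S : Finset (Fin n)) (v : Vert n) : ℝ := ∑ i ∈ S, if v i then 1 else -1

theorem sg_blk (b j : ℕ) (v : Vert n) :
    sg (blk n b j) v = (blevel b j v : ℝ) - blevel b j (anti v) := by
  unfold sg
  have h1 := blevel_anti b j v
  rw [show (univ.filter (fun i : Fin n => i.val % b = j)) = blk n b j from rfl] at h1
  have e : ∀ i, (if v i then (1 : ℝ) else -1) = 2 * (if v i then 1 else 0) - 1 := by
    intro i; split_ifs <;> norm_num
  have e2 : ∑ i ∈ blk n b j, (if v i then (1 : ℝ) else 0) = blevel b j v := by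
    rw [← Finset.sum_filter]
    simp only [Finset.sum_const, nsmul_eq_mul, mul_one]
    congr 2
    ext i
    simp [blk]
  rw [Finset.sum_congr rfl fun i _ => e i, Finset.sum_sub_distrib, ← Finset.mul_sum, e2,
    Finset.sum_const, nsmul_eq_mul, mul_one, ← h1]
  push_cast
  ring

theorem dist_ge {r b : ℕ} (hb : 0 < b) (hr : 0 < r) (hbr : 2 * b ≤ r) (v : Vert n) :
    ∑ j ∈ range b, |sg (blk n b j) v| - 1 ≤ dist (blayer n r b hr) v (anti v) := by
  have hne : {k : ℕ | ∃ w : (Q n).Walk v (anti v), w.IsPath ∧
      numChanges (colours (blayer n r b hr) w) = k}.Nonempty := by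
    obtain ⟨w⟩ := exists_walk v (anti v)
    exact ⟨_, w.bypass, w.bypass_isPath, rfl⟩
  obtain ⟨w, -, hw⟩ := Nat.sInf_mem hne
  have hw' : numChanges (colours (blayer n r b hr) w) = dist (blayer n r b hr) v (anti v) := hw
  have h1 : ∀ j ∈ range b, |sg (blk n b j) v|
      ≤ (runs (part j (colours (blayer n r b hr) w)) : ℝ) := by
    intro j hj
    have h2 := inv_bound _ _ _ (inv_walk hb hr hbr w (mem_range.mp hj))
    rw [sg_blk]
    exact_mod_cast h2
  have h3 := sum_runs_part b (colours (blayer n r b hr) w)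
  have h4 := runs_le (colours (blayer n r b hr) w)
  rw [hw'] at h4
  have h5 : ∑ j ∈ range b, |sg (blk n b j) v|
      ≤ ((dist (blayer n r b hr) v (anti v) + 1 : ℕ) : ℝ) := by
    refine (Finset.sum_le_sum h1).trans ?_
    have : ∑ j ∈ range b, runs (part j (colours (blayer n r b hr) w))
      ≤ dist (blayer n r b hr) v (anti v) + 1 := h3.trans h4
    exact_mod_cast this
  push_cast at h5
  linarith

end lower

/-! ### Moments of signed sums -/

section moments

variable {n : ℕ}

theorem sum_sign_zero (i : Fin n) (g : Vert n → ℝ) (hg : ∀ v, g (flp v i) = g v) :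
    ∑ v : Vert n, (if v i then (1 : ℝ) else -1) * g v = 0 := by
  have h := Equiv.sum_comp (OrderOfGrowth.flipPerm i)
    (fun v : Vert n => (if v i then (1 : ℝ) else -1) * g v)
  have h2 : ∑ v : Vert n, (if (OrderOfGrowth.flipPerm i v) i then (1 : ℝ) else -1) *
      g (OrderOfGrowth.flipPerm i v)
      = -∑ v : Vert n, (if v i then (1 : ℝ) else -1) * g v := by
    rw [← Finset.sum_neg_distrib]
    apply Finset.sum_congr rfl
    intro v _
    show (if (flp v i) i then (1 : ℝ) else -1) * g (flp v i) = _
    rw [hg, flip_same]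
    cases v i <;> simp
  rw [h2] at h
  linarith

theorem sg_flip (S : Finset (Fin n)) (i : Fin n) (hi : i ∉ S) (v : Vert n) :
    sg S (flp v i) = sg S v := by
  unfold sg
  apply Finset.sum_congr rfl
  intro j hj
  rw [flip_ne v (show j ≠ i from fun e => hi (by rw [← e]; exact hj))]

theorem sg_insert (S : Finset (Fin n)) (i : Fin n) (hi : i ∉ S) (v : Vert n) :
    sg (insert i S) v = (if v i then 1 else -1) + sg S v := Finset.sum_insert hi

theorem card_vert : (Fintype.card (Vert n) : ℝ) = 2 ^ n := by
  simp only [Fintype.card_pi, Fintype.card_bool, Finset.prod_const, Finset.card_univ,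
    Fintype.card_fin]
  push_cast
  rfl

theorem sum_sg_sq (S : Finset (Fin n)) : ∑ v : Vert n, sg S v ^ 2 = S.card * 2 ^ n := by
  induction S using Finset.induction_on with
  | empty => simp [sg]
  | @insert i S hi ih =>
    have e : ∀ v : Vert n, sg (insert i S) v ^ 2
        = 1 + (if v i then (1 : ℝ) else -1) * (2 * sg S v) + sg S v ^ 2 := by
      intro v
      rw [sg_insert S i hi]
      split_ifs <;> ring
    rw [Finset.sum_congr rfl fun v _ => e v, Finset.sum_add_distrib, Finset.sum_add_distrib,
      sum_sign_zero i (fun v => 2 * sg S v) (fun v => by rw [sg_flip S i hi]), ih,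
      Finset.card_insert_of_notMem hi, Finset.sum_const, Finset.card_univ, nsmul_eq_mul, card_vert]
    push_cast
    ring

theorem sum_sg_four (S : Finset (Fin n)) :
    ∑ v : Vert n, sg S v ^ 4 = (3 * (S.card : ℝ) ^ 2 - 2 * S.card) * 2 ^ n := by
  induction S using Finset.induction_on with
  | empty => simp [sg]
  | @insert i S hi ih =>
    have e : ∀ v : Vert n, sg (insert i S) v ^ 4
        = 1 + (if v i then (1 : ℝ) else -1) * (4 * sg S v + 4 * sg S v ^ 3)
          + (6 * sg S v ^ 2 + sg S v ^ 4) := by
      intro v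
      rw [sg_insert S i hi]
      split_ifs <;> ring
    rw [Finset.sum_congr rfl fun v _ => e v, Finset.sum_add_distrib, Finset.sum_add_distrib,
      sum_sign_zero i (fun v => 4 * sg S v + 4 * sg S v ^ 3)
        (fun v => by rw [sg_flip S i hi]),
      Finset.sum_add_distrib, ← Finset.mul_sum, sum_sg_sq, ih,
      Finset.card_insert_of_notMem hi, Finset.sum_const, Finset.card_univ, nsmul_eq_mul, card_vert]
    push_cast
    ring

theorem sum_abs_sg (S : Finset (Fin n)) :
    Real.sqrt (S.card / 3) * 2 ^ n ≤ ∑ v : Vert n, |sg S v| := by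
  rcases Nat.eq_zero_or_pos S.card with h0 | h0
  · rw [h0]
    simp only [Nat.cast_zero, zero_div, Real.sqrt_zero, zero_mul]
    exact Finset.sum_nonneg fun v _ => abs_nonneg _
  · have hc : (0 : ℝ) < S.card := by exact_mod_cast h0
    set a : ℝ := Real.sqrt (3 * S.card) with ha
    have ha0 : 0 < a := Real.sqrt_pos.mpr (by positivity)
    have ha2 : a ^ 2 = 3 * S.card := Real.sq_sqrt (by positivity)
    have hpt : ∀ x : ℝ, (3 * a ^ 2 * x ^ 2 - x ^ 4) / (2 * a ^ 3) ≤ |x| := by
      intro x
      rw [div_le_iff₀ (by positivity)]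
      have h1 : x ^ 2 = |x| ^ 2 := (sq_abs x).symm
      have h2 : x ^ 4 = |x| ^ 4 := by
        rw [show x ^ 4 = (x ^ 2) ^ 2 by ring, h1]; ring
      rw [h1, h2]
      set y := |x|
      have hy : 0 ≤ y := abs_nonneg x
      have h3 : y * (2 * a ^ 3) - (3 * a ^ 2 * y ^ 2 - y ^ 4) = y * ((y - a) ^ 2 * (y + 2 * a)) := by
        ring
      have h4 : 0 ≤ y * ((y - a) ^ 2 * (y + 2 * a)) := by positivity
      linarith
    have hsum : ∑ v : Vert n, (3 * a ^ 2 * sg S v ^ 2 - sg S v ^ 4) / (2 * a ^ 3)
        = (3 * a ^ 2 * (S.card * 2 ^ n) - (3 * (S.card : ℝ) ^ 2 - 2 * S.card) * 2 ^ n)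
          / (2 * a ^ 3) := by
      rw [← Finset.sum_div, Finset.sum_sub_distrib, ← Finset.mul_sum, sum_sg_sq, sum_sg_four]
    refine le_trans ?_ (Finset.sum_le_sum fun v _ => hpt (sg S v))
    rw [hsum, le_div_iff₀ (by positivity)]
    have hs : Real.sqrt (S.card / 3) = a / 3 := by
      rw [ha, show (S.card : ℝ) / 3 = (3 * S.card) / 3 ^ 2 by ring,
        Real.sqrt_div' _ (by positivity), Real.sqrt_sq (by norm_num)]
    rw [hs]
    have h5 : a / 3 * 2 ^ n * (2 * a ^ 3) = 2 / 3 * (a ^ 2) ^ 2 * 2 ^ n := by ring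
    rw [h5, ha2]
    have h6 : (3 * (3 * (S.card : ℝ)) * (S.card * 2 ^ n)
        - (3 * (S.card : ℝ) ^ 2 - 2 * S.card) * 2 ^ n)
        - 2 / 3 * (3 * (S.card : ℝ)) ^ 2 * 2 ^ n = 2 * S.card * 2 ^ n := by ring
    have h7 : (0 : ℝ) ≤ 2 * S.card * 2 ^ n := by positivity
    linarith

theorem card_blk {b j : ℕ} (hj : j < b) (hbn : b ≤ n) : n ≤ 2 * b * (blk n b j).card := by
  have hb : 0 < b := by omega
  have h1 : n / b ≤ (blk n b j).card := by
    have h2 : ((range (n / b)).image (fun q => j + q * b)).card = n / b := by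
      rw [Finset.card_image_of_injective, Finset.card_range]
      intro q q' h
      have h : j + q * b = j + q' * b := h
      have : q * b = q' * b := by omega
      exact Nat.eq_of_mul_eq_mul_right hb this
    have h3 : (range (n / b)).image (fun q => j + q * b) ⊆ (blk n b j).image (fun i => i.val) := by
      intro x hx
      obtain ⟨q, hq, rfl⟩ := Finset.mem_image.mp hx
      have hq' := mem_range.mp hq
      have hlt : j + q * b < n := by
        have h4 : (q + 1) * b ≤ n / b * b := Nat.mul_le_mul_right b hq'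
        have h5 : n / b * b ≤ n := Nat.div_mul_le_self n b
        have h6 : (q + 1) * b = q * b + b := by ring
        omega
      refine Finset.mem_image.mpr ⟨⟨j + q * b, hlt⟩, ?_, rfl⟩
      simp only [blk, mem_filter, mem_univ, true_and]
      rw [Nat.add_mul_mod_self_right, Nat.mod_eq_of_lt hj]
    calc n / b = ((range (n / b)).image (fun q => j + q * b)).card := h2.symm
      _ ≤ ((blk n b j).image (fun i => i.val)).card := Finset.card_le_card h3
      _ ≤ (blk n b j).card := Finset.card_image_le
  have h4 : 1 ≤ n / b := (Nat.one_le_div_iff hb).mpr hbn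
  have h5 : n < b * (n / b + 1) := Nat.lt_mul_div_succ n hb
  have h6 : b * (n / b + 1) ≤ b * (2 * (n / b)) := Nat.mul_le_mul_left b (by omega)
  have h7 : b * (2 * (n / b)) ≤ b * (2 * (blk n b j).card) :=
    Nat.mul_le_mul_left b (Nat.mul_le_mul_left 2 h1)
  have h8 : b * (2 * (blk n b j).card) = 2 * b * (blk n b j).card := by ring
  omega

theorem M_ge (n r : ℕ) (hr : 2 ≤ r) (hrn : r ≤ 2 * n) :
    Real.sqrt (r * n / 18) - 1 ≤ M n r := by
  set b : ℕ := r / 2 with hb
  have hb0 : 0 < b := by omega
  have hbn : b ≤ n := by omega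
  have h3b : r ≤ 3 * b := by omega
  have hr0 : 0 < r := by omega
  have hbr : 2 * b ≤ r := by omega
  refine le_trans ?_ (A_le_M (blayer n r b hr0) (by omega))
  unfold A
  rw [le_div_iff₀ (by positivity)]
  have h1 : ∑ v : Vert n, (∑ j ∈ range b, |sg (blk n b j) v| - 1)
      ≤ ∑ v : Vert n, (dist (blayer n r b hr0) v (anti v) : ℝ) :=
    Finset.sum_le_sum fun v _ => dist_ge hb0 hr0 hbr v
  refine le_trans ?_ h1
  rw [Finset.sum_sub_distrib, Finset.sum_comm, Finset.sum_const, Finset.card_univ, nsmul_eq_mul,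
    card_vert]
  have hbR : (0 : ℝ) < b := by exact_mod_cast hb0
  have h2 : ∀ j ∈ range b, Real.sqrt (n / (6 * b)) * 2 ^ n ≤ ∑ v : Vert n, |sg (blk n b j) v| := by
    intro j hj
    refine le_trans ?_ (sum_abs_sg (blk n b j))
    apply mul_le_mul_of_nonneg_right _ (by positivity)
    apply Real.sqrt_le_sqrt
    have h3 := card_blk (mem_range.mp hj) hbn
    have h4 : (n : ℝ) ≤ 2 * b * (blk n b j).card := by exact_mod_cast h3
    rw [div_le_div_iff₀ (by positivity) (by positivity)]
    nlinarith
  have h5 := Finset.sum_le_sum h2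
  rw [Finset.sum_const, card_range, nsmul_eq_mul] at h5
  have h6 : Real.sqrt (r * n / 18) ≤ b * Real.sqrt (n / (6 * b)) := by
    have h7 : (b : ℝ) * Real.sqrt (n / (6 * b)) = Real.sqrt (b * n / 6) := by
      nth_rewrite 1 [← Real.sqrt_sq hbR.le]
      rw [← Real.sqrt_mul (by positivity)]
      congr 1
      field_simp
    rw [h7]
    apply Real.sqrt_le_sqrt
    have h8 : (r : ℝ) ≤ 3 * b := by exact_mod_cast h3b
    have h9 : (r : ℝ) * n ≤ 3 * b * n := mul_le_mul_of_nonneg_right h8 (Nat.cast_nonneg _)
    linarith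
  have h10 := mul_le_mul_of_nonneg_right h6 (show (0 : ℝ) ≤ 2 ^ n by positivity)
  rw [sub_mul, one_mul, mul_one]
  linarith

/-! ### Two colours -/

theorem blk_one (n : ℕ) : blk n 1 0 = univ := by
  ext i
  simp [blk, Nat.mod_one]

theorem sg_univ (v : Vert n) : sg univ v = 2 * (level v : ℝ) - n := by
  have h := sg_blk 1 0 v
  rw [blk_one] at h
  have h1 : blevel 1 0 v = level v := by
    unfold blevel level
    congr 1
    ext i
    simp [Nat.mod_one]
  have h2 : blevel 1 0 (anti v) = level (anti v) := by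
    unfold blevel level
    congr 1
    ext i
    simp [Nat.mod_one]
  have h3 := level_anti v
  rw [h, h1, h2]
  have h4 : (level (anti v) : ℝ) + level v = n := by exact_mod_cast h3
  linarith

theorem A_two_ge (n : ℕ) : (∑ v : Vert n, (|(n : ℝ) - 2 * level v| - 1
    + if (n : ℝ) - 2 * level v = 0 then 1 else 0)) / 2 ^ n ≤ M n 2 := by
  refine le_trans ?_ (A_le_M (blayer n 2 1 (by norm_num)) (by norm_num))
  unfold A
  apply div_le_div_of_nonneg_right _ (by positivity)
  apply Finset.sum_le_sum
  intro v _
  have h1 := dist_ge (n := n) (r := 2) (b := 1) one_pos (by norm_num) (by norm_num) v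
  rw [Finset.sum_range_one, blk_one, sg_univ, abs_sub_comm] at h1
  have h2 : (0 : ℝ) ≤ dist (blayer n 2 1 (by norm_num)) v (anti v) := Nat.cast_nonneg _
  split_ifs with h
  · rw [h, abs_zero]
    linarith
  · linarith

theorem central_mul (k : ℕ) :
    Real.sqrt (2 / Real.pi * (2 * k + 1)) ≤ (2 * k + 1) * ((k.centralBinom : ℝ) / 4 ^ k) := by
  have hk : (0 : ℝ) < 2 * k + 1 := by positivity
  have h1 := central_lower k
  have h2 := mul_le_mul_of_nonneg_left h1 hk.le
  refine le_trans (le_of_eq ?_) h2
  have hpi := Real.pi_pos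
  rw [Real.sqrt_mul (by positivity)]
  have h3 := Real.mul_self_sqrt hk.le
  have h4 : Real.sqrt (2 * (k : ℝ) + 1) ≠ 0 := (Real.sqrt_pos.mpr hk).ne'
  field_simp
  nlinarith

theorem M_two_ge (n : ℕ) : Real.sqrt (2 / Real.pi * n) - 1 ≤ M n 2 := by
  refine le_trans ?_ (A_two_ge n)
  have hp : (0 : ℝ) < 2 ^ n := by positivity
  rw [le_div_iff₀ hp, Finset.sum_add_distrib, Finset.sum_sub_distrib, Finset.sum_const,
    Finset.card_univ, nsmul_eq_mul, card_vert, mul_one]
  have hnn : (0 : ℝ) ≤ ∑ v : Vert n, if (n : ℝ) - 2 * level v = 0 then (1 : ℝ) else 0 :=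
    Finset.sum_nonneg fun v _ => by split_ifs <;> norm_num
  rcases Nat.even_or_odd' n with ⟨k, hk | hk⟩
  · rcases Nat.eq_zero_or_pos k with hk0 | hk0
    · subst hk0
      have hn0 : n = 0 := by omega
      subst hn0
      have habs : (0 : ℝ) ≤ ∑ v : Vert 0, |((0 : ℕ) : ℝ) - 2 * level v| :=
        Finset.sum_nonneg fun v _ => abs_nonneg _
      simp only [Nat.cast_zero, mul_zero, Real.sqrt_zero, pow_zero] at *
      linarith
    · obtain ⟨l, rfl⟩ : ∃ l, k = l + 1 := ⟨k - 1, by omega⟩
      obtain rfl : n = (2 * l + 1) + 1 := by omega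
      have h1 := sum_abs_level (2 * l + 1) l (by omega)
      have h2 : ∑ v : Vert (2 * l + 1 + 1),
          (if ((2 * l + 1 + 1 : ℕ) : ℝ) - 2 * level v = 0 then (1 : ℝ) else 0)
          = ((l + 1).centralBinom : ℝ) := by
        rw [sum_level (fun k => if ((2 * l + 1 + 1 : ℕ) : ℝ) - 2 * k = 0 then (1 : ℝ) else 0),
          Finset.sum_eq_single (l + 1)]
        · rw [if_pos (by push_cast; ring), mul_one, Nat.centralBinom_eq_two_mul_choose]
          congr 2
        · intro j _ hj
          rw [if_neg, mul_zero]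
          intro e
          apply hj
          have : (2 * l + 1 + 1 : ℝ) = 2 * j := by push_cast at e; linarith
          have h3 : 2 * l + 1 + 1 = 2 * j := by exact_mod_cast this
          omega
        · intro h
          exact absurd (mem_range.mpr (by omega)) h
      rw [h2]
      have h3 : (((l + 1).centralBinom : ℝ)) = 2 * ((2 * l + 1).choose l : ℝ) := by
        have : (l + 1).centralBinom = 2 * (2 * l + 1).choose l := by
          rw [Nat.centralBinom_eq_two_mul_choose, show 2 * (l + 1) = (2 * l + 1) + 1 by ring,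
            Nat.choose_succ_succ, Nat.choose_symm_half]
          ring
        exact_mod_cast this
      have h4 := central_mul (l + 1)
      have h5 : (4 : ℝ) ^ (l + 1) = 2 ^ (2 * l + 1 + 1) := by
        rw [show (4 : ℝ) = 2 ^ 2 by norm_num, ← pow_mul]
        congr 1
      rw [h5] at h4
      have h6 : Real.sqrt (2 / Real.pi * ((2 * l + 1 + 1 : ℕ) : ℝ))
          ≤ Real.sqrt (2 / Real.pi * (2 * ((l + 1 : ℕ) : ℝ) + 1)) := by
        apply Real.sqrt_le_sqrt
        apply mul_le_mul_of_nonneg_left _ (by have := Real.pi_pos; positivity)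
        push_cast
        linarith
      have h7 := mul_le_mul_of_nonneg_right (h6.trans h4) hp.le
      have h8 : (2 * ((l + 1 : ℕ) : ℝ) + 1) *
          (((l + 1).centralBinom : ℝ) / 2 ^ (2 * l + 1 + 1)) * 2 ^ (2 * l + 1 + 1)
          = (2 * ((l + 1 : ℕ) : ℝ) + 1) * ((l + 1).centralBinom : ℝ) := by
        field_simp
      rw [h8] at h7
      have h9 : 2 * (((2 * l + 1 : ℕ) : ℝ) + 1) * ((2 * l + 1).choose l : ℝ)
          = (2 * ((l + 1 : ℕ) : ℝ)) * ((l + 1).centralBinom : ℝ) := by
        rw [h3]; push_cast; ring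
      rw [h9] at h1
      rw [sub_mul, one_mul]
      nlinarith
  · obtain rfl : n = 2 * k + 1 := hk
    have h1 := sum_abs_level (2 * k) k (by omega)
    have h4 := central_mul k
    have h5 : (4 : ℝ) ^ k = 2 ^ (2 * k) := by
      rw [show (4 : ℝ) = 2 ^ 2 by norm_num, ← pow_mul]
    rw [h5] at h4
    have h7 := mul_le_mul_of_nonneg_right h4 hp.le
    have h8 : (2 * (k : ℝ) + 1) * ((k.centralBinom : ℝ) / 2 ^ (2 * k)) * 2 ^ (2 * k + 1)
        = 2 * ((2 * k : ℕ) + 1 : ℝ) * ((2 * k).choose k : ℝ) := by
      rw [Nat.centralBinom_eq_two_mul_choose, pow_succ]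
      push_cast
      field_simp
    rw [h8] at h7
    have h9 : Real.sqrt (2 / Real.pi * ((2 * k + 1 : ℕ) : ℝ))
        = Real.sqrt (2 / Real.pi * (2 * k + 1)) := by push_cast; rfl
    rw [h9, sub_mul, one_mul]
    linarith

end moments

/-- The supremum defining `M n r` is attained, so it is a maximum. -/
theorem exists_A_eq_M (n r : ℕ) (hr : 1 ≤ r) : ∃ χ : Colouring n r, A χ = M n r := by
  have : Nonempty (Colouring n r) := ⟨fun _ => ⟨0, hr⟩⟩
  have : Finite (Colouring n r) := inferInstance
  exact exists_eq_ciSup_of_finite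

/-- `dist χ u v` is attained by some path, so it is a genuine minimum. -/
theorem exists_path_eq_dist {n r : ℕ} (χ : Colouring n r) (u v : Vert n) :
    ∃ w : (Q n).Walk u v, w.IsPath ∧ numChanges (colours χ w) = dist χ u v := by
  have hne : {k : ℕ | ∃ w : (Q n).Walk u v, w.IsPath ∧
      numChanges (colours χ w) = k}.Nonempty := by
    obtain ⟨w⟩ := exists_walk u v
    exact ⟨_, w.bypass, w.bypass_isPath, rfl⟩
  exact Nat.sInf_mem hne

/-- **Main theorem.** Two colours: `√(2n/π) - 1 ≤ M(n) ≤ √(πn/2)`. Any number `r` of colours and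
any colouring: the mean square of the antipodal colour-change number is at most
`(π/2)² (r - 1) n`, that of the colour-change number of a random pair at most `(π/4)² (r - 1) n`.
These are sharp up to a constant factor, uniformly in `2 ≤ r ≤ 2n`. -/
theorem result :
    (∀ n : ℕ, Real.sqrt (2 / Real.pi * n) - 1 ≤ M n 2 ∧ M n 2 ≤ Real.sqrt (Real.pi / 2 * n)) ∧
    (∀ (n r : ℕ), 1 ≤ r → ∀ χ : Colouring n r,
      (∑ v : Vert n, (dist χ v (anti v) : ℝ) ^ 2) / 2 ^ n ≤ (Real.pi / 2) ^ 2 * ((r - 1) * n) ∧
      (∑ u : Vert n, ∑ v : Vert n, (dist χ u v : ℝ) ^ 2) / 4 ^ n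
        ≤ (Real.pi / 4) ^ 2 * ((r - 1) * n)) ∧
    (∀ n r : ℕ, 2 ≤ r → r ≤ 2 * n →
      Real.sqrt (r * n / 18) - 1 ≤ M n r ∧ M n r ≤ Real.pi / 2 * Real.sqrt ((r - 1) * n)) := by
  refine ⟨fun n => ⟨M_two_ge n, M_le_two n⟩, fun n r hr χ => ⟨?_, ?_⟩,
    fun n r hr hrn => ⟨M_ge n r hr hrn, M_le n r (by omega)⟩⟩
  · rw [div_le_iff₀ (by positivity)]
    exact sum_sq_anti χ hr
  · rw [div_le_iff₀ (by positivity)]
    exact sum_sq_pairs χ hr

end Pool.Agent.Results.MP_c14f63_co.ManyColours
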